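import Mathlib
import Pool.Agent.V11244.KwBij

namespace Pool.Agent.Results.MP_53071c_co.KeywordPair

/-- Negation of a word: every letter is flipped. -/
def neg (u : List Bool) : List Bool := u.map (fun x => !x)

/-- Seminegation of a word: the letters in even positions (positions counted from 1) are
flipped; in `mapIdx` positions are counted from 0. -/
def semineg (u : List Bool) : List Bool :=
  u.mapIdx (fun j x => if j % 2 = 1 then !x else x)

/-- The substitution map: if the block of `u` of length `a.length` that follows the first `i`
letters is `a` or the negation of `a`, this block is negated, otherwise `u` is unchanged. -/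
def subst (a : List Bool) (i : ℕ) (u : List Bool) : List Bool :=
  if (u.drop i).take a.length = a ∨ (u.drop i).take a.length = neg a then
    u.take i ++ (neg ((u.drop i).take a.length) ++ u.drop (i + a.length))
  else u

theorem neg_neg (u : List Bool) : neg (neg u) = u := by
  induction u with
  | nil => rfl
  | cons x l ih =>
    have : neg (neg (x :: l)) = (!(!x)) :: neg (neg l) := rfl
    rw [this, ih, Bool.not_not]

theorem length_neg (u : List Bool) : (neg u).length = u.length := by
  simp [neg]

theorem subst_of_decomp (a A B C : List Bool) (hB : B = a ∨ B = neg a) :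
    subst a A.length (A ++ (B ++ C)) = A ++ (neg B ++ C) := by
  have hl : B.length = a.length := by
    rcases hB with h | h
    · rw [h]
    · rw [h, length_neg]
  have h1 : ((A ++ (B ++ C)).drop A.length).take a.length = B := by
    rw [List.drop_left, ← hl, List.take_left]
  unfold subst
  rw [h1, if_pos hB, List.take_left]
  congr 2
  rw [← hl, ← List.drop_drop, List.drop_left, List.drop_left]

theorem decomp_of_subst (a : List Bool) (i : ℕ) (u : List Bool) (hi : i + a.length ≤ u.length) :
    subst a i u = u ∨ ∃ A B C : List Bool, A.length = i ∧ (B = a ∨ B = neg a) ∧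
      u = A ++ (B ++ C) ∧ subst a i u = A ++ (neg B ++ C) := by
  by_cases hc : (u.drop i).take a.length = a ∨ (u.drop i).take a.length = neg a
  · right
    refine ⟨u.take i, (u.drop i).take a.length, u.drop (i + a.length), ?_, hc, ?_, ?_⟩
    · rw [List.length_take]; omega
    · rw [← List.drop_drop, List.take_append_drop, List.take_append_drop]
    · unfold subst
      rw [if_pos hc]
  · left
    unfold subst
    rw [if_neg hc]

theorem neg_ne (a : List Bool) (ha : a ≠ []) : neg a ≠ a := by
  cases a with
  | nil => exact absurd rfl ha
  | cons x l => cases x <;> simp [neg]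

/-- The keyword substitution graph of the keyword `a` on the words of length `n`: distinct words
`u`, `v` are adjacent iff `v` is the image of `u` under one of the substitution maps (the block
that follows the first `i` letters must lie inside the word). -/
def G (a : List Bool) (n : ℕ) : SimpleGraph {u : List Bool // u.length = n} where
  Adj u v := u ≠ v ∧ ∃ i, i + a.length ≤ n ∧ v.1 = subst a i u.1
  symm := by
    constructor
    rintro u v ⟨huv, i, hi, h⟩
    refine ⟨huv.symm, i, hi, ?_⟩
    rcases decomp_of_subst a i u.1 (by rw [u.2]; exact hi) with h0 | ⟨A, B, C, hA, hB, hu, hv⟩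
    · exact absurd (Subtype.ext (h.trans h0).symm) huv
    · rw [h, hv, hu]
      subst hA
      have hB' : neg B = a ∨ neg B = neg a := by
        rcases hB with hB | hB
        · right; rw [hB]
        · left; rw [hB, neg_neg]
      rw [subst_of_decomp a A (neg B) C hB', neg_neg]
  loopless := ⟨fun u h => h.1 rfl⟩

/-- One step: `b` is the negation, the seminegation or the reversal of `a`. -/
def Step (a b : List Bool) : Prop := b = neg a ∨ b = semineg a ∨ b = a.reverse

/-! ### Difference words -/

open Pool.Agent.V11244.KwBij

/-- differences of consecutive letters, the first letter being compared with `p` -/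
def D : Bool → List Bool → List Bool
  | _, [] => []
  | p, x :: l => (xor p x) :: D x l

/-- the inverse of `D p` -/
def I : Bool → List Bool → List Bool
  | _, [] => []
  | p, d :: l => (xor p d) :: I (xor p d) l

/-- flip the first letter -/
def ff : List Bool → List Bool
  | [] => []
  | x :: l => (!x) :: l

theorem D_I (l : List Bool) : ∀ p, D p (I p l) = l := by
  induction l with
  | nil => intro p; rfl
  | cons d l ih =>
    intro p
    have h : D p (I p (d :: l)) = (xor p (xor p d)) :: D (xor p d) (I (xor p d) l) := rfl
    rw [h, ih]
    cases p <;> cases d <;> rfl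

theorem I_D (l : List Bool) : ∀ p, I p (D p l) = l := by
  induction l with
  | nil => intro p; rfl
  | cons x l ih =>
    intro p
    have h : I p (D p (x :: l)) = (xor p (xor p x)) :: I (xor p (xor p x)) (D x l) := rfl
    have h2 : xor p (xor p x) = x := by cases p <;> cases x <;> rfl
    rw [h, h2, ih]

theorem length_D (l : List Bool) : ∀ p, (D p l).length = l.length := by
  induction l with
  | nil => intro p; rfl
  | cons x l ih => intro p; simp [D, ih]

theorem length_I (l : List Bool) : ∀ p, (I p l).length = l.length := by
  induction l with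
  | nil => intro p; rfl
  | cons x l ih => intro p; simp [I, ih]

theorem getLastD_cons' (x p : Bool) (l : List Bool) : (x :: l).getLastD p = l.getLastD x := by
  cases l with
  | nil => rfl
  | cons y l => simp [List.getLastD]

theorem D_append (l r : List Bool) : ∀ p, D p (l ++ r) = D p l ++ D (l.getLastD p) r := by
  induction l with
  | nil => intro p; rfl
  | cons x l ih =>
    intro p
    have h : D p ((x :: l) ++ r) = (xor p x) :: D x (l ++ r) := rfl
    rw [h, ih, getLastD_cons']
    rfl

theorem I_append (l r : List Bool) : ∀ p, I p (l ++ r) = I p l ++ I ((I p l).getLastD p) r := by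
  induction l with
  | nil => intro p; rfl
  | cons x l ih =>
    intro p
    have h : I p ((x :: l) ++ r) = (xor p x) :: I (xor p x) (l ++ r) := rfl
    have h2 : I p (x :: l) = (xor p x) :: I (xor p x) l := rfl
    rw [h, ih, h2, getLastD_cons']
    rfl

theorem D_neg (l : List Bool) : ∀ p, D (!p) (neg l) = D p l := by
  induction l with
  | nil => intro p; rfl
  | cons x l ih =>
    intro p
    have h : D (!p) (neg (x :: l)) = (xor (!p) (!x)) :: D (!x) (neg l) := rfl
    rw [h, ih]
    have h2 : D p (x :: l) = (xor p x) :: D x l := rfl
    rw [h2]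
    cases p <;> cases x <;> rfl

theorem D_flip (l : List Bool) (p : Bool) : D (!p) l = ff (D p l) := by
  cases l with
  | nil => rfl
  | cons x l =>
    have h : D (!p) (x :: l) = (xor (!p) x) :: D x l := rfl
    have h2 : ff (D p (x :: l)) = (!(xor p x)) :: D x l := rfl
    rw [h, h2]
    cases p <;> cases x <;> rfl

theorem I_not (l : List Bool) : ∀ p, I (!p) l = neg (I p l) := by
  induction l with
  | nil => intro p; rfl
  | cons x l ih =>
    intro p
    have h : I (!p) (x :: l) = (xor (!p) x) :: I (xor (!p) x) l := rfl
    have h2 : neg (I p (x :: l)) = (!(xor p x)) :: neg (I (xor p x) l) := rfl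
    have h3 : xor (!p) x = !(xor p x) := by cases p <;> cases x <;> rfl
    rw [h, h2, h3, ih]

theorem I_ff (l : List Bool) (p : Bool) : I (!p) (ff l) = I p l := by
  cases l with
  | nil => rfl
  | cons x l =>
    have h : I (!p) (ff (x :: l)) = (xor (!p) (!x)) :: I (xor (!p) (!x)) l := rfl
    have h2 : I p (x :: l) = (xor p x) :: I (xor p x) l := rfl
    have h3 : xor (!p) (!x) = xor p x := by cases p <;> cases x <;> rfl
    rw [h, h2, h3]

theorem getLastD_neg (l : List Bool) : ∀ p, (neg l).getLastD (!p) = !(l.getLastD p) := by
  induction l with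
  | nil => intro p; rfl
  | cons x l ih =>
    intro p
    have h : neg (x :: l) = (!x) :: neg l := rfl
    rw [h, getLastD_cons', getLastD_cons', ih]

/-- one move on difference words -/
def Mv (P w w' : List Bool) : Prop :=
  ∃ g x h, w = (g ++ [x]) ++ (P ++ h) ∧ w' = (g ++ [!x]) ++ (P ++ ff h)

theorem adj_iff (a : List Bool) (ha : a ≠ []) (n : ℕ) (u v : {u : List Bool // u.length = n}) :
    (G a n).Adj u v ↔ ∃ A B C : List Bool, (B = a ∨ B = neg a) ∧ u.1 = A ++ (B ++ C) ∧
      v.1 = A ++ (neg B ++ C) := by
  constructor
  · rintro ⟨huv, i, hi, h⟩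
    rcases decomp_of_subst a i u.1 (by rw [u.2]; exact hi) with h0 | ⟨A, B, C, hA, hB, hu, hv⟩
    · exact absurd (Subtype.ext (h.trans h0).symm) huv
    · exact ⟨A, B, C, hB, hu, by rw [h, hv]⟩
  · rintro ⟨A, B, C, hB, hu, hv⟩
    have hBl : B.length = a.length := by
      rcases hB with h | h
      · rw [h]
      · rw [h, length_neg]
    refine ⟨?_, A.length, ?_, ?_⟩
    · intro huv
      rw [huv, hv] at hu
      have h1 := List.append_cancel_right (List.append_cancel_left hu)
      refine neg_ne B ?_ h1
      intro h0
      apply ha
      apply List.eq_nil_of_length_eq_zero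
      rw [← hBl, h0]; rfl
    · have := u.2
      rw [hu] at this
      simp only [List.length_append] at this
      omega
    · rw [hu, subst_of_decomp a A B C hB, hv]

theorem forward (a1 : Bool) (a' A B C : List Bool) (hB : B = a1 :: a' ∨ B = neg (a1 :: a')) :
    Mv (D a1 a') (D false (A ++ (B ++ C))) (D false (A ++ (neg B ++ C))) := by
  obtain ⟨b1, B', hB1, hB2⟩ : ∃ b1 B', B = b1 :: B' ∧ D b1 B' = D a1 a' := by
    rcases hB with h | h
    · exact ⟨a1, a', h, rfl⟩
    · exact ⟨!a1, neg a', h, D_neg a' a1⟩
  subst hB1
  set p := A.getLastD false with hp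
  refine ⟨D false A, xor p b1, D (B'.getLastD b1) C, ?_, ?_⟩
  · rw [D_append, ← hp]
    have h : D p (b1 :: B' ++ C) = (xor p b1) :: D b1 (B' ++ C) := rfl
    rw [h, D_append, hB2]
    simp
  · rw [D_append, ← hp]
    have h : D p (neg (b1 :: B') ++ C) = (xor p (!b1)) :: D (!b1) (neg B' ++ C) := rfl
    rw [h, D_append, D_neg, hB2, getLastD_neg, D_flip]
    have h3 : xor p (!b1) = !(xor p b1) := by cases p <;> cases b1 <;> rfl
    rw [h3]
    simp

theorem backward (a1 : Bool) (a' : List Bool) (w w' : List Bool) (h : Mv (D a1 a') w w') :
    ∃ A B C : List Bool, (B = a1 :: a' ∨ B = neg (a1 :: a')) ∧ I false w = A ++ (B ++ C) ∧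
      I false w' = A ++ (neg B ++ C) := by
  obtain ⟨g, x, h, rfl, rfl⟩ := h
  set A := I false g with hA
  set p := A.getLastD false with hp
  set b1 := xor p x with hb1
  set P := D a1 a' with hP
  set q := (I b1 P).getLastD b1 with hq
  refine ⟨A, b1 :: I b1 P, I q h, ?_, ?_, ?_⟩
  · by_cases hb : b1 = a1
    · left
      rw [hb, hP, I_D]
    · right
      have hb' : b1 = !a1 := by
        revert hb
        cases b1 <;> cases a1 <;> simp
      rw [hb', hP, I_not, I_D]
      rfl
  · rw [List.append_assoc, I_append, ← hA, ← hp]
    have e : I p ([x] ++ (P ++ h)) = b1 :: I b1 (P ++ h) := rfl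
    rw [e, I_append, ← hq]
    rfl
  · rw [List.append_assoc, I_append, ← hA, ← hp]
    have h3 : xor p (!x) = !b1 := by rw [hb1]; cases p <;> cases x <;> rfl
    have e : I p ([!x] ++ (P ++ ff h)) = (xor p (!x)) :: I (xor p (!x)) (P ++ ff h) := rfl
    rw [e, h3, I_append, I_not P, getLastD_neg, ← hq, I_ff]
    rfl

theorem good_ff {P Q : List Bool} {n : ℕ} {F : List Bool → List Bool} (hF : Good P Q n F)
    (h : List Bool) (hl : h.length ≤ n) : F (ff h) = ff (F h) := by
  cases h with
  | nil =>
    have : F [] = [] := by
      apply List.eq_nil_of_length_eq_zero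
      rw [hF.len [] (by simp)]; rfl
    have h1 : ff [] = [] := rfl
    rw [h1, this]
    rfl
  | cons x l =>
    have e : ff (x :: l) = (!x) :: l := rfl
    rw [e]
    have h1 := hF.hd (x :: l) hl
    have h2 := hF.hd ((!x) :: l) (by simpa using hl)
    have h3 := hF.tl (x :: l) ((!x) :: l) hl (by simp) rfl
    have e1 : F (x :: l) = x :: (F (x :: l)).tail := by
      cases hc : F (x :: l) with
      | nil => rw [hc] at h1; simp at h1
      | cons y t => rw [hc] at h1; simp at h1; rw [h1]; rfl
    have e2 : F ((!x) :: l) = (!x) :: (F ((!x) :: l)).tail := by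
      cases hc : F ((!x) :: l) with
      | nil => rw [hc] at h2; simp at h2
      | cons y t => rw [hc] at h2; simp at h2; rw [h2]; rfl
    rw [e2, e1, ← h3]
    rfl

theorem eq_concat_of_getLast? (l : List Bool) (x : Bool) (h : l.getLast? = some x) :
    l = l.dropLast ++ [x] := by
  have hne : l ≠ [] := by
    intro h0; rw [h0] at h; simp at h
  rw [List.getLast?_eq_getLast_of_ne_nil hne, Option.some.injEq] at h
  rw [← h, List.dropLast_append_getLast hne]

theorem good_mv {P Q : List Bool} {n : ℕ} {F : List Bool → List Bool} (hF : Good P Q n F)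
    (w w' : List Bool) (hl : w.length ≤ n) (h : Mv P w w') : Mv Q (F w) (F w') := by
  obtain ⟨g, x, h, rfl, rfl⟩ := h
  have lff : (ff h).length = h.length := by cases h <;> rfl
  have l1 : ((g ++ [x]) ++ (P ++ h)).length = g.length + 1 + (P.length + h.length) := by
    simp only [List.length_append, List.length_singleton]
  have l2 : ((g ++ [!x]) ++ (P ++ ff h)).length = g.length + 1 + (P.length + h.length) := by
    simp only [List.length_append, List.length_singleton, lff]
  have l3 : (g ++ [x]).length = g.length + 1 := by simp
  have l4 : (g ++ [!x]).length = g.length + 1 := by simp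
  rw [hF.ap _ _ hl, hF.ap _ _ (by omega)]
  have h1 := hF.lt (g ++ [x]) (by omega)
  have h2 := hF.lt (g ++ [!x]) (by omega)
  have h3 := hF.dl (g ++ [x]) (g ++ [!x]) (by omega) (by omega) (by
    rw [List.dropLast_concat, List.dropLast_concat])
  rw [List.getLast?_concat] at h1 h2
  refine ⟨(F (g ++ [x])).dropLast, x, F h, ?_, ?_⟩
  · conv_lhs => rw [eq_concat_of_getLast? _ _ h1]
  · conv_lhs => rw [eq_concat_of_getLast? _ _ h2]
    rw [h3, good_ff hF h (by omega)]

theorem adj_transfer (a1 b1 : Bool) (a' b' : List Bool) {n N : ℕ} (hn : n ≤ N)
    {F : List Bool → List Bool} (hF : Good (D a1 a') (D b1 b') N F)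
    (u v u' v' : {u : List Bool // u.length = n})
    (hu : u'.1 = I false (F (D false u.1))) (hv : v'.1 = I false (F (D false v.1)))
    (h : (G (a1 :: a') n).Adj u v) : (G (b1 :: b') n).Adj u' v' := by
  rw [adj_iff _ (by simp)] at h ⊢
  obtain ⟨A, B, C, hB, h1, h2⟩ := h
  have h3 := forward a1 a' A B C hB
  rw [← h1, ← h2] at h3
  have h4 := good_mv hF _ _ (by rw [length_D, u.2]; exact hn) h3
  obtain ⟨A', B', C', hB', h5, h6⟩ := backward b1 b' _ _ h4
  exact ⟨A', B', C', hB', by rw [hu, h5], by rw [hv, h6]⟩

theorem iso_of_unbordered (a1 b1 : Bool) (a' b' : List Bool)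
    (hl : (D a1 a').length = (D b1 b').length) (hP2 : 2 ≤ (D a1 a').length)
    (hhd : (D a1 a').head? = (D b1 b').head?) (hlt : (D a1 a').getLast? = (D b1 b').getLast?)
    (uP : Unb (D a1 a')) (uQ : Unb (D b1 b')) (n : ℕ) :
    Nonempty (G (a1 :: a') n ≃g G (b1 :: b') n) := by
  have hP : D a1 a' ≠ [] := by intro h; rw [h] at hP2; simp at hP2
  have hQ : D b1 b' ≠ [] := by intro h; rw [hl, h] at hP2; simp at hP2
  obtain ⟨F, F', hF, hF', hi1, hi2⟩ :=
    exists_both hP hQ hl hP2 hhd hlt uP uQ (n + 1) (by omega)
  have lF : ∀ u : List Bool, u.length = n → (I false (F (D false u))).length = n := by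
    intro u hu
    rw [length_I, hF.len _ (by rw [length_D]; omega), length_D, hu]
  have lF' : ∀ u : List Bool, u.length = n → (I false (F' (D false u))).length = n := by
    intro u hu
    rw [length_I, hF'.len _ (by rw [length_D]; omega), length_D, hu]
  let e : {u : List Bool // u.length = n} ≃ {u : List Bool // u.length = n} :=
    { toFun := fun u => ⟨I false (F (D false u.1)), lF u.1 u.2⟩
      invFun := fun u => ⟨I false (F' (D false u.1)), lF' u.1 u.2⟩
      left_inv := by
        intro u
        apply Subtype.ext
        change I false (F' (D false (I false (F (D false u.1))))) = u.1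
        rw [D_I, hi1 _ (by rw [length_D, u.2]; omega), I_D]
      right_inv := by
        intro u
        apply Subtype.ext
        change I false (F (D false (I false (F' (D false u.1))))) = u.1
        rw [D_I, hi2 _ (by rw [length_D, u.2]; omega), I_D] }
  refine ⟨⟨e, ?_⟩⟩
  intro u v
  constructor
  · intro h
    refine adj_transfer b1 a1 b' a' (Nat.le_succ n) hF' (e u) (e v) u v ?_ ?_ h
    · exact (congrArg Subtype.val (e.left_inv u)).symm
    · exact (congrArg Subtype.val (e.left_inv v)).symm
  · intro h
    exact adj_transfer a1 b1 a' b' (Nat.le_succ n) hF u v (e u) (e v) rfl rfl h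

theorem unb_of_four (P : List Bool) (hP : P.length = 4) (h1 : ¬ P.drop 1 <+: P)
    (h2 : ¬ P.drop 2 <+: P) (h3 : ¬ P.drop 3 <+: P) : Unb P := by
  intro a c ha hc h
  have hc' : c = P.drop a.length := by rw [h, List.drop_left]
  have hal : 1 ≤ a.length := List.length_pos_iff.2 ha
  have hcl : 1 ≤ c.length := List.length_pos_iff.2 hc
  have : a.length + c.length = 4 := by rw [← hP, h, List.length_append]
  have h4 : a.length = 1 ∨ a.length = 2 ∨ a.length = 3 := by omega
  rcases h4 with h4 | h4 | h4 <;> rw [h4] at hc' <;> rw [hc'] <;> assumption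

/-- the eight words obtained from `10000` -/
def orbit : List (List Bool) :=
  [[true, false, false, false, false], [false, true, true, true, true],
   [true, true, false, true, false], [false, false, true, false, true],
   [false, false, false, false, true], [true, true, true, true, false],
   [false, true, false, true, true], [true, false, true, false, false]]

theorem orbit_closed : ∀ x ∈ orbit, neg x ∈ orbit ∧ semineg x ∈ orbit ∧ x.reverse ∈ orbit := by
  decide

theorem not_orbit : ¬ Relation.ReflTransGen Step [true, false, false, false, false]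
    [false, true, false, false, false] := by
  intro h
  have key : ∀ y, Relation.ReflTransGen Step [true, false, false, false, false] y →
      y ∈ orbit := by
    intro y hy
    induction hy with
    | refl => decide
    | tail _ hs ih =>
      obtain ⟨h1, h2, h3⟩ := orbit_closed _ ih
      rcases hs with hs | hs | hs <;> rw [hs] <;> assumption
  have := key _ h
  revert this
  decide

/-- The keywords `10000` and `01000` have isomorphic substitution graphs for every length `n`,
but `01000` is not obtained from `10000` by negations, seminegations and reversals. -/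
theorem result :
    (∀ n : ℕ, Nonempty (G [true, false, false, false, false] n ≃g
      G [false, true, false, false, false] n)) ∧
    ¬ Relation.ReflTransGen Step [true, false, false, false, false]
      [false, true, false, false, false] := by
  refine ⟨fun n => ?_, not_orbit⟩
  refine iso_of_unbordered true false [false, false, false, false] [true, false, false, false]
    (by decide) (by decide) (by decide) (by decide) ?_ ?_ n
  · exact unb_of_four _ (by decide) (by decide) (by decide) (by decide)
  · exact unb_of_four _ (by decide) (by decide) (by decide) (by decide)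

end Pool.Agent.Results.MP_53071c_co.KeywordPair
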